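import Pool.Agent.H21.GBC.Final

/-!
# A complete asymptotically flat metric with `L_2 > 0`, `R > 0` and negative
Gauss-Bonnet-Chern mass

All notions except one (`IsRiemannianMetric`, `christoffel`, `riem`, `curv`, `L2`, `P`, `flux`,
`HasGBCMass`, `IsAsymptoticallyFlat`, `L2Integrable`, `IsCompleteMetric`) are defined in
`Pool.Agent.H91.GBCDefs`; the scalar curvature `scalCurv g x = ∑ i, ∑ j, curv g i j i j x`, that
is `R = R_{ij}^{ij}`, is defined in `Pool.Agent.H21.GBC.Closed`.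

The metric is `g = δ + 4 s³ Jx ⊗ Jx + (s³ + 2 s⁴) x ⊗ x` on `ℝ⁶ = ℂ³`, where
`s = (1 + |x|²)^(-1/2)` and `J` is the complex structure.
-/

namespace Pool.Agent.Results.MP_c3d4b2_gt.NegativeMassPositiveScalar

open Pool.Agent.H91.GBC Pool.Agent.H21.GBC

/-- On `ℝ⁶` there is a complete smooth Riemannian metric, asymptotically flat of an order
`τ > (6 - 4) / 3`, with `L_2 (g)` integrable, with `L_2 (g) > 0` and scalar curvature `R > 0`
everywhere, whose Gauss-Bonnet-Chern mass is `-11/20 < 0`. -/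
theorem result :
    ∃ (g : MatField 6) (τ : ℝ),
      IsRiemannianMetric g ∧ IsCompleteMetric g ∧
      ((6 : ℝ) - 4) / 3 < τ ∧ IsAsymptoticallyFlat g τ ∧
      L2Integrable g ∧ (∀ x, 0 < L2 g x) ∧ (∀ x, 0 < scalCurv g x) ∧
      HasGBCMass g (-11 / 20) :=
  ⟨gR, 1, gR_metric, gR_complete, by norm_num, gR_flat, gR_L2Integrable, L2_pos2, scal_pos,
    gR_mass⟩

end Pool.Agent.Results.MP_c3d4b2_gt.NegativeMassPositiveScalar
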